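import Pool.Agent.R634.CC.Basic

/-!
# MP_e377f6_gt, Q1: the existence of such subgroups is not a theorem of ZFC

If `ω₁ < 𝔭` (for instance under `MA + ¬CH`), then for `K = 𝕋 = ℝ/ℤ` and for `K = ℤ(p)`, `p` prime,
every dense countably compact subgroup of `K^{ω₁}` contains an uncountable compact subset. This is
the negated form of Q1.
-/

namespace Pool.Agent.Results.MP_e377f6_gt.NotInZFC

open Pool.Agent.R634.CC Cardinal

/-- The topological group `K` has the property of the negated form of Q1: every dense countably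
compact subgroup of `K^{ω₁}` contains an uncountable compact subset. The index set `ω₁` is an
arbitrary set `ι` of cardinality `ℵ₁`. -/
def NegatedForm (K : Type) [AddCommGroup K] [TopologicalSpace K] : Prop :=
  ∀ (ι : Type), #ι = ℵ₁ → ∀ D : AddSubgroup (ι → K), Dense (D : Set (ι → K)) →
    IsCountablyCompact (D : Set (ι → K)) →
    ∃ C ⊆ (D : Set (ι → K)), IsCompact C ∧ ¬ C.Countable

theorem result (hp : OmegaOneLtP) :
    NegatedForm UnitAddCircle ∧ ∀ p : ℕ, p.Prime → NegatedForm (ZMod p) := by
  constructor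
  · intro ι hι D hD hcc
    have : Nontrivial UnitAddCircle := by
      refine ⟨⟨((1 / 2 : ℝ) : UnitAddCircle), 0, fun h => ?_⟩⟩
      obtain ⟨n, hn⟩ := (AddCircle.coe_eq_zero_iff (1 : ℝ)).1 h
      rw [zsmul_eq_mul, mul_one] at hn
      have h2 : (2 * n : ℝ) = 1 := by rw [hn]; norm_num
      have h3 : (2 * n : ℤ) = 1 := by exact_mod_cast h2
      omega
    exact main hp hι UnitAddCircle D hD hcc
  · intro p hpr ι hι D hD hcc
    have : Fact p.Prime := ⟨hpr⟩
    have : Finite (ZMod p) := inferInstance
    exact main hp hι (ZMod p) D hD hcc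

end Pool.Agent.Results.MP_e377f6_gt.NotInZFC
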